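import Mathlib

/-!
# A partial isometry satisfying (N) which is not embeddable into a C_0-semigroup

On every infinite dimensional complex Hilbert space the rank one operator `x ↦ ⟪e₁, x⟫ e₀`
(`e₀`, `e₁` orthonormal) is a partial isometry with infinite dimensional kernel and range of
infinite codimension, and it does not belong to any C_0-semigroup: the range `ℂ e₀` is invariant
under the semigroup, which acts on it by a continuous multiplicative function that vanishes at
time one.
-/

open scoped InnerProductSpace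
open Filter Topology

namespace Pool.Agent.Results.MP_d5c8f2_an.RankOneNilpotent

variable {H : Type*} [NormedAddCommGroup H] [InnerProductSpace ℂ H]

/-- `C_0`-semigroups of bounded operators. -/
structure IsC0Semigroup (S : NNReal → H →L[ℂ] H) : Prop where
  zero : S 0 = ContinuousLinearMap.id ℂ H
  add : ∀ s t, S (s + t) = (S s).comp (S t)
  cont : ∀ x, Continuous fun t => S t x

/-- `T` is embeddable: `T = S 1` for some `C_0`-semigroup `S`. -/
def Embeddable (T : H →L[ℂ] H) : Prop := ∃ S : NNReal → H →L[ℂ] H, IsC0Semigroup S ∧ S 1 = T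

/-- Partial isometries. -/
def IsPartialIsometry (T : H →L[ℂ] H) : Prop :=
  ∀ x ∈ (LinearMap.ker (T : H →ₗ[ℂ] H))ᗮ, ‖T x‖ = ‖x‖

/-- Condition (N): the kernel is zero or infinite dimensional, and the orthogonal complement of
the range is zero or infinite dimensional. -/
def ConditionN (T : H →L[ℂ] H) : Prop :=
  (LinearMap.ker (T : H →ₗ[ℂ] H) = ⊥ ∨ ¬ FiniteDimensional ℂ (LinearMap.ker (T : H →ₗ[ℂ] H))) ∧
  ((LinearMap.range (T : H →ₗ[ℂ] H))ᗮ = ⊥ ∨
    ¬ FiniteDimensional ℂ ((LinearMap.range (T : H →ₗ[ℂ] H))ᗮ : Submodule ℂ H))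

theorem infinite_orthogonal (hinf : ¬ FiniteDimensional ℂ H) (K : Submodule ℂ H)
    [FiniteDimensional ℂ K] : ¬ FiniteDimensional ℂ (Kᗮ : Submodule ℂ H) := by
  intro h
  apply hinf
  have e := Submodule.prodEquivOfIsCompl K Kᗮ (Submodule.isCompl_orthogonal_of_hasOrthogonalProjection)
  exact Module.Finite.equiv e

theorem exists_pair (hinf : ¬ FiniteDimensional ℂ H) :
    ∃ a b : H, ‖a‖ = 1 ∧ ‖b‖ = 1 ∧ ⟪a, b⟫_ℂ = 0 := by
  haveI : Nontrivial H := by
    by_contra hn
    rw [not_nontrivial_iff_subsingleton] at hn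
    exact hinf inferInstance
  obtain ⟨a, ha⟩ := exists_norm_eq H (zero_le_one : (0 : ℝ) ≤ 1)
  have hK := infinite_orthogonal hinf (Submodule.span ℂ {a})
  haveI : Nontrivial ((Submodule.span ℂ {a})ᗮ : Submodule ℂ H) := by
    by_contra hn
    rw [not_nontrivial_iff_subsingleton] at hn
    exact hK inferInstance
  obtain ⟨b, hb⟩ := exists_norm_eq ((Submodule.span ℂ {a})ᗮ : Submodule ℂ H)
    (zero_le_one : (0 : ℝ) ≤ 1)
  refine ⟨a, b, ha, hb, ?_⟩
  exact (Submodule.mem_orthogonal _ _).1 b.2 a (Submodule.mem_span_singleton_self a)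

/-- **Negative answer to Q1**: on every infinite dimensional complex Hilbert space there is a
partial isometry satisfying (N) which is not embeddable. -/
theorem result (H : Type*) [NormedAddCommGroup H] [InnerProductSpace ℂ H] [CompleteSpace H]
    (hinf : ¬ FiniteDimensional ℂ H) :
    ∃ T : H →L[ℂ] H, IsPartialIsometry T ∧ ConditionN T ∧ ¬ Embeddable T := by
  obtain ⟨a, b, ha, hb, hab⟩ := exists_pair hinf
  let T : H →L[ℂ] H := (ContinuousLinearMap.smulRight (innerSL ℂ b) a)
  have hT : ∀ x, T x = ⟪b, x⟫_ℂ • a := fun x => by simp [T]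
  have ha0 : a ≠ 0 := by
    intro h; rw [h] at ha; simp at ha
  have hker : LinearMap.ker (T : H →ₗ[ℂ] H) = (Submodule.span ℂ {b})ᗮ := by
    ext x
    rw [LinearMap.mem_ker, Submodule.mem_orthogonal_singleton_iff_inner_right]
    show T x = 0 ↔ _
    rw [hT, smul_eq_zero]
    simp [ha0]
  have hbb : ⟪b, b⟫_ℂ = 1 := by
    rw [inner_self_eq_norm_sq_to_K, hb]; simp
  have hran : LinearMap.range (T : H →ₗ[ℂ] H) = Submodule.span ℂ {a} := by
    ext x
    rw [LinearMap.mem_range, Submodule.mem_span_singleton]
    constructor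
    · rintro ⟨y, hy⟩
      exact ⟨⟪b, y⟫_ℂ, by rw [← hy]; exact (hT y).symm⟩
    · rintro ⟨c, hc⟩
      refine ⟨c • b, ?_⟩
      show T (c • b) = x
      rw [hT, inner_smul_right, hbb, mul_one, hc]
  refine ⟨T, ?_, ⟨Or.inr ?_, Or.inr ?_⟩, ?_⟩
  · intro x hx
    rw [hker, Submodule.orthogonal_orthogonal] at hx
    obtain ⟨c, rfl⟩ := Submodule.mem_span_singleton.1 hx
    rw [hT, inner_smul_right, hbb, mul_one, norm_smul, norm_smul, ha, hb]
  · rw [hker]
    exact infinite_orthogonal hinf _
  · rw [hran]
    exact infinite_orthogonal hinf _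
  · rintro ⟨S, hS, hS1⟩
    -- the range is invariant
    have hcomm : ∀ t, S t (T b) = T (S t b) := by
      intro t
      have h1 : (S t).comp (S 1) = (S 1).comp (S t) := by
        rw [← hS.add, ← hS.add, add_comm]
      rw [hS1] at h1
      exact DFunLike.congr_fun h1 b
    have hTb : T b = a := by rw [hT, hbb, one_smul]
    have hinv : ∀ t, S t a = ⟪b, S t b⟫_ℂ • a := by
      intro t
      have := hcomm t
      rw [hTb, hT] at this
      exact this
    let c : NNReal → ℂ := fun t => ⟪b, S t b⟫_ℂ
    have hc : ∀ t, S t a = c t • a := hinv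
    have hcadd : ∀ s t, c (s + t) = c s * c t := by
      intro s t
      have h1 : S (s + t) a = (c s * c t) • a := by
        rw [hS.add, ContinuousLinearMap.comp_apply, hc t, map_smul, hc s, smul_smul, mul_comm]
      rw [hc] at h1
      exact smul_left_injective ℂ ha0 h1
    have hc0 : c 0 = 1 := by
      have h1 := hc 0
      rw [hS.zero] at h1
      have h2 : (1 : ℂ) • a = c 0 • a := by rw [one_smul]; exact h1
      exact (smul_left_injective ℂ ha0 h2).symm
    have hc1 : c 1 = 0 := by
      have h1 := hc 1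
      rw [hS1, hT] at h1
      have h2 : ⟪b, a⟫_ℂ = 0 := by
        rw [← inner_conj_symm, hab]; simp
      rw [h2, zero_smul] at h1
      rcases smul_eq_zero.1 h1.symm with h | h
      · exact h
      · exact absurd h ha0
    have hcc : Continuous c := by
      have := hS.cont b
      exact continuous_const.inner this
    have hpow : ∀ (n : ℕ) (t : NNReal), c (n • t) = c t ^ n := by
      intro n t
      induction n with
      | zero => simp [hc0]
      | succ n ih => rw [succ_nsmul, hcadd, ih, pow_succ]
    have hzero : ∀ n : ℕ, c (1 / ((n : NNReal) + 1)) = 0 := by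
      intro n
      have h1 := hpow (n + 1) (1 / ((n : NNReal) + 1))
      have h2 : (n + 1) • (1 / ((n : NNReal) + 1)) = 1 := by
        rw [nsmul_eq_mul]; push_cast; field_simp
      rw [h2, hc1] at h1
      exact pow_eq_zero_iff (by omega) |>.1 h1.symm
    have hlim : Tendsto (fun n : ℕ => c (1 / ((n : NNReal) + 1))) atTop (𝓝 (c 0)) := by
      have h3 : Tendsto (fun n : ℕ => (1 / ((n : NNReal) + 1))) atTop (𝓝 0) := by
        exact tendsto_one_div_add_atTop_nhds_zero_nat
      exact (hcc.tendsto 0).comp h3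
    have : c 0 = 0 := by
      refine tendsto_nhds_unique hlim ?_
      simp only [hzero]
      exact tendsto_const_nhds
    rw [hc0] at this
    exact one_ne_zero this

end Pool.Agent.Results.MP_d5c8f2_an.RankOneNilpotent
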